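import Pool.Agent.TMX.Stmts

set_option autoImplicit false

namespace Pool.Agent.TMX.H94

open Finset
open Pool.Agent.Helper51_Max (I IsMax)
open Pool.Agent.TMX

/-- ROW BV3 -/
theorem bV3 : BV3 := by
  intro hTan hMon hCov hBGap hGapS hGapI N g M k w l hM hB x₁ y₁ x₂ y₂ x₃ h1 h2 h3 h4 h5
  obtain ⟨mUp, mDn⟩ := hMon hTan N g M hM
  obtain ⟨cL, cR⟩ := hCov hTan N g M k w l hM hB
  have hkw := hB.kw
  have hwl := hB.wl
  have hlN := hB.lN
  have hkN : k ≤ N := (hkw.trans hwl).trans hlN
  have hUp : Up M 0 k := mUp k hkN hB.up1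
  have hDn : Dn M l N := mDn l hB.dn2
  have gwk : g w ≤ g k := hB.dn1 k w le_rfl hkw le_rfl
  have gwl : g w ≤ g l := hB.up2 w l le_rfl hwl le_rfl
  have gmax : ∀ i, i ≤ N → g i ≤ g k + g l - g w := by
    intro i hi
    rcases le_total i k with a | a
    · have := hB.up1 i k (Nat.zero_le _) a le_rfl
      linarith
    · rcases le_total i w with b | b
      · have := hB.dn1 k i le_rfl a b
        linarith
      · rcases le_total i l with c | c
        · have := hB.up2 i l b c le_rfl
          linarith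
        · have := hB.dn2 l i le_rfl c hi
          linarith
  have Mmax : ∀ v, v ≤ N → M v ≤ g k + g l - g w := by
    intro v hv
    obtain ⟨r, hr⟩ := hM.attained v hv
    have hc0 : 0 < (I N v r).card := by
      refine Finset.card_pos.2 ⟨v, ?_⟩
      unfold I
      rw [Finset.mem_Icc]
      omega
    have hc : (0 : ℝ) < ((I N v r).card : ℝ) := Nat.cast_pos.2 hc0
    have h6 : M v * ((I N v r).card : ℝ) ≤ (g k + g l - g w) * ((I N v r).card : ℝ) := by
      rw [hr]
      calc ∑ i ∈ I N v r, g i ≤ ∑ i ∈ I N v r, (g k + g l - g w) := by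
            refine Finset.sum_le_sum fun i hi => gmax i ?_
            unfold I at hi
            rw [Finset.mem_Icc] at hi
            omega
        _ = (g k + g l - g w) * ((I N v r).card : ℝ) := by
            rw [Finset.sum_const, nsmul_eq_mul]
            ring
    exact le_of_mul_le_mul_right h6 hc
  have gM : ∀ v, v ≤ N → g v ≤ M v := by
    intro v hv
    have h6 := hM.le v hv 0
    have h7 : I N v 0 = {v} := by
      ext i
      unfold I
      rw [Finset.mem_Icc, Finset.mem_singleton]
      omega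
    rw [h7] at h6
    simpa using h6
  have gwy : ∀ y, k ≤ y → y ≤ l → g w ≤ M y := by
    intro y hy1 hy2
    refine le_trans ?_ (gM y (hy2.trans hlN))
    rcases le_total y w with b | b
    · exact hB.dn1 y w hy1 b le_rfl
    · exact hB.up2 w y le_rfl b hy2
  have two : ∀ p y q, p ≤ y → y ≤ q → q ≤ N → M p - M y + M q ≤ g k + g l - g w := by
    intro p y q hp hq hN
    rcases le_total y k with a | a
    · have := hUp p y (Nat.zero_le _) hp a
      linarith [Mmax q hN]
    · rcases le_total l y with b | b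
      · have := hDn y q b hq hN
        linarith [Mmax p (by omega)]
      · by_cases c1 : g k < M p
        · linarith [cL p y hp b c1, Mmax q hN]
        · by_cases c2 : g l < M q
          · linarith [cR q y a hq hN c2, Mmax p (by omega)]
          · linarith [gwy y a b]
  rcases le_total y₁ k with a | a
  · have e1 := hUp x₁ y₁ (Nat.zero_le _) h1 a
    linarith [two x₂ y₂ x₃ h3 h4 h5]
  rcases le_total l y₂ with b | b
  · have e1 := hDn y₂ x₃ b h4 h5
    linarith [two x₁ y₁ x₂ h1 h2 (by omega)]
  have hy1l : y₁ ≤ l := by omega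
  have hky2 : k ≤ y₂ := by omega
  by_cases c1 : g k < M x₁
  · linarith [cL x₁ y₁ h1 hy1l c1, two x₂ y₂ x₃ h3 h4 h5]
  by_cases c2 : g l < M x₃
  · linarith [cR x₃ y₂ hky2 h4 h5 c2, two x₁ y₁ x₂ h1 h2 (by omega)]
  have key : M x₂ + g w ≤ M y₁ + M y₂ := by
    by_cases d1 : M x₂ ≤ M y₁
    · linarith [gwy y₂ hky2 b]
    by_cases d2 : M x₂ ≤ M y₂
    · linarith [gwy y₁ a hy1l]
    have n1 : y₁ ≠ x₂ := by
      rintro rfl
      exact d1 le_rfl
    have n2 : x₂ ≠ y₂ := by
      rintro rfl
      exact d2 le_rfl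
    exact hBGap hTan hGapS hGapI N g M k w l hM hB y₁ x₂ y₂ a (by omega) (by omega) b
      (not_le.1 d1) (not_le.1 d2)
  linarith

end Pool.Agent.TMX.H94
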